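import Pool.Agent.N783.PF.Def
import Pool.Agent.N262.PQ.Exs
import Mathlib.NumberTheory.NumberField.Discriminant.Different

/-!
# Project PF, part EXS: the sets of primes

The existence of irreducible polynomials with trace zero is from PJ-EXS (helper738), the set of
rational primes from PQ-EXS (helper262).
-/

set_option autoImplicit false
set_option linter.all false

open Polynomial NumberField
open scoped Classical

namespace Pool.Agent.N710.PF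

open Pool.Agent.N783.PF

variable {F : Type} [Field F] [NumberField F]

theorem ne_bot_of_mem {q : ℕ} (hq : q.Prime) {𝔭 : Ideal (𝓞 F)} (h : (q : 𝓞 F) ∈ 𝔭) : 𝔭 ≠ ⊥ := by
  rintro rfl
  rw [Ideal.mem_bot] at h
  exact hq.ne_zero (by exact_mod_cast h)

/-- the norm of a prime ideal over `q` is divisible by `q` -/
theorem dvd_absNorm {q : ℕ} (hq : q.Prime) {𝔭 : Ideal (𝓞 F)} (hp : 𝔭.IsPrime)
    (h : (q : 𝓞 F) ∈ 𝔭) : q ∣ Ideal.absNorm 𝔭 := by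
  have h1 : Ideal.absNorm 𝔭 ∣ Ideal.absNorm (Ideal.span {(q : 𝓞 F)}) :=
    Ideal.absNorm_dvd_absNorm_of_le ((Ideal.span_singleton_le_iff_mem _).mpr h)
  rw [Ideal.absNorm_span_singleton] at h1
  have h2 : Algebra.norm ℤ (q : 𝓞 F) = (q : ℤ) ^ Module.finrank ℤ (𝓞 F) := by
    have : (q : 𝓞 F) = algebraMap ℤ (𝓞 F) (q : ℤ) := by simp
    rw [this, Algebra.norm_algebraMap]
  rw [h2, Int.natAbs_pow, Int.natAbs_natCast] at h1
  obtain ⟨k, hk, hk2⟩ := (Nat.dvd_prime_pow hq).mp h1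
  rcases Nat.eq_zero_or_pos k with rfl | hk0
  · rw [pow_zero, Ideal.absNorm_eq_one_iff] at hk2
    exact absurd hk2 hp.ne_top
  · rw [hk2]
    exact dvd_pow_self _ hk0.ne'

/-- large primes are unramified -/
theorem not_mem_sq {q : ℕ} (hq : q.Prime) (hd : (discr F).natAbs < q) {𝔭 : Ideal (𝓞 F)}
    (hp : 𝔭.IsPrime) : (q : 𝓞 F) ∉ 𝔭 ^ 2 := by
  intro h
  have hqp : (q : 𝓞 F) ∈ 𝔭 := Ideal.pow_le_self (by norm_num) h
  have hmax : (Ideal.span {(q : ℤ)}).IsMaximal := by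
    have : Prime (q : ℤ) := Nat.prime_iff_prime_int.mp hq
    exact PrincipalIdealRing.isMaximal_of_irreducible this.irreducible
  have hne : (Ideal.span {(q : ℤ)}) ≠ ⊥ := by
    rw [Ne, Ideal.span_singleton_eq_bot]
    exact_mod_cast hq.ne_zero
  have hdv : 𝔭 ^ 2 ∣ (Ideal.span {(q : ℤ)}).map (algebraMap ℤ (𝓞 F)) := by
    rw [Ideal.dvd_iff_le, Ideal.map_span, Set.image_singleton, Ideal.span_singleton_le_iff_mem]
    simpa using h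
  have h1 := pow_sub_one_dvd_differentIdeal ℤ 𝔭 2 hne hdv
  rw [show 2 - 1 = 1 from rfl, pow_one] at h1
  have h2 : Ideal.absNorm 𝔭 ∣ (discr F).natAbs := by
    rw [← absNorm_differentIdeal F (𝓞 F)]
    exact Ideal.absNorm_dvd_absNorm_of_le (Ideal.dvd_iff_le.mp h1)
  have h3 := (dvd_absNorm hq hp hqp).trans h2
  have h4 := Nat.le_of_dvd (Int.natAbs_pos.mpr (discr_ne_zero F)) h3
  omega

/-- the prime ideals over `q` -/
abbrev Ov (F : Type) [Field F] [NumberField F] (q : ℕ) : Type :=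
  {𝔭 : Ideal (𝓞 F) // 𝔭.IsPrime ∧ (q : 𝓞 F) ∈ 𝔭}

theorem finite_over {q : ℕ} (hq : q.Prime) : Finite (Ov F q) := by
  have hne : Ideal.span {(q : 𝓞 F)} ≠ 0 := by
    rw [Ne, Ideal.zero_eq_bot, Ideal.span_singleton_eq_bot]
    exact_mod_cast hq.ne_zero
  have : Finite {𝔭 : Ideal (𝓞 F) // 𝔭 ∣ Ideal.span {(q : 𝓞 F)}} :=
    @Fintype.finite _ (UniqueFactorizationMonoid.fintypeSubtypeDvd _ hne)
  refine Finite.of_injective (β := {𝔭 : Ideal (𝓞 F) // 𝔭 ∣ Ideal.span {(q : 𝓞 F)}})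
    (fun 𝔭 => ⟨𝔭.1, Ideal.dvd_iff_le.mpr ((Ideal.span_singleton_le_iff_mem _).mpr 𝔭.2.2)⟩) ?_
  intro a b hab
  exact Subtype.ext (congrArg (fun x => x.1) hab)

theorem isMaximal_over {q : ℕ} (hq : q.Prime) (𝔭 : Ov F q) : (𝔭.1).IsMaximal :=
  𝔭.2.1.isMaximal (ne_bot_of_mem hq 𝔭.2.2)

/-- lifting of polynomials -/
theorem lift {q : ℕ} (hq : q.Prime) (n : ℕ) (hn : 1 ≤ n) (r : ∀ 𝔭 : Ov F q, (𝓞 F ⧸ 𝔭.1)[X])
    (hr : ∀ 𝔭, (r 𝔭).Monic ∧ (r 𝔭).natDegree = n ∧ (r 𝔭).coeff (n - 1) = 0) :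
    ∃ A : (𝓞 F)[X], A.Monic ∧ A.natDegree = n ∧ A.coeff (n - 1) = 0 ∧
      ∀ 𝔭 : Ov F q, rd 𝔭.1 A = r 𝔭 := by
  have hfin := finite_over (F := F) hq
  have hcop : Pairwise (Function.onFun IsCoprime (fun 𝔭 : Ov F q => 𝔭.1)) := by
    intro 𝔭 𝔭' hne
    have := isMaximal_over hq 𝔭
    have := isMaximal_over hq 𝔭'
    exact Ideal.isCoprime_of_isMaximal (fun h => hne (Subtype.ext h))
  have hsur : ∀ (𝔭 : Ov F q) (y : 𝓞 F ⧸ 𝔭.1), ∃ x, Ideal.Quotient.mk 𝔭.1 x = y := fun 𝔭 =>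
    Ideal.Quotient.mk_surjective
  choose s hs using hsur
  have hex : ∀ i : ℕ, ∃ a : 𝓞 F, ∀ 𝔭 : Ov F q, Ideal.Quotient.mk 𝔭.1 a = (r 𝔭).coeff i := by
    intro i
    obtain ⟨a, ha⟩ := Ideal.exists_forall_sub_mem_ideal hcop (fun 𝔭 => s 𝔭 ((r 𝔭).coeff i))
    refine ⟨a, fun 𝔭 => ?_⟩
    rw [← hs 𝔭 ((r 𝔭).coeff i)]
    exact Ideal.Quotient.eq.mpr (ha 𝔭)
  choose a ha using hex
  set P : (𝓞 F)[X] := ∑ i ∈ Finset.range (n - 1), C (a i) * X ^ i with hP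
  have hPd : P.degree < ((n - 1 : ℕ) : WithBot ℕ) := by
    rw [hP]
    refine lt_of_le_of_lt (degree_sum_le _ _) ?_
    rw [Finset.sup_lt_iff (WithBot.bot_lt_coe _)]
    intro i hi
    refine lt_of_le_of_lt (degree_C_mul_X_pow_le _ _) ?_
    exact_mod_cast Finset.mem_range.mp hi
  have hPd2 : P.degree < ((n : ℕ) : WithBot ℕ) :=
    hPd.trans (by exact_mod_cast (by omega : n - 1 < n))
  have hnd : (X ^ n + P).natDegree = n := by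
    rw [natDegree_add_eq_left_of_degree_lt (by rw [degree_X_pow]; exact hPd2), natDegree_X_pow]
  refine ⟨X ^ n + P, monic_X_pow_add hPd2, hnd, ?_, ?_⟩
  · rw [coeff_add, coeff_X_pow, if_neg (by omega), coeff_eq_zero_of_degree_lt hPd, add_zero]
  · intro 𝔭
    obtain ⟨h1, h2, h3⟩ := hr 𝔭
    show (X ^ n + P).map (Ideal.Quotient.mk 𝔭.1) = r 𝔭
    conv_rhs => rw [h1.as_sum, h2]
    rw [Polynomial.map_add, Polynomial.map_pow, map_X, hP, Polynomial.map_sum]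
    congr 1
    have e : n = (n - 1) + 1 := by omega
    rw [e, Finset.sum_range_succ, ← e, h3, C_0, zero_mul, add_zero]
    refine Finset.sum_congr rfl fun i _ => ?_
    rw [Polynomial.map_mul, map_C, Polynomial.map_pow, map_X, ha]

/-- irreducible polynomials of trace zero modulo a prime ideal -/
theorem exists_irr_mod {q : ℕ} (hq : q.Prime) (n : ℕ) (hn : 1 ≤ n) (hnq : n < q) (𝔭 : Ov F q) :
    ∃ r : (𝓞 F ⧸ 𝔭.1)[X], r.Monic ∧ Irreducible r ∧ r.natDegree = n ∧ r.coeff (n - 1) = 0 := by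
  have hmax := isMaximal_over hq 𝔭
  letI := Ideal.Quotient.field 𝔭.1
  have : Finite (𝓞 F ⧸ 𝔭.1) :=
    Ideal.finiteQuotientOfFreeOfNeBot _ (ne_bot_of_mem hq 𝔭.2.2)
  have hn0 : ((n : ℕ) : 𝓞 F ⧸ 𝔭.1) ≠ 0 := by
    intro h0
    have h1 : Ideal.Quotient.mk 𝔭.1 ((n : ℕ) : 𝓞 F) = 0 := by
      rw [map_natCast]
      exact h0
    rw [Ideal.Quotient.eq_zero_iff_mem] at h1
    have hc : IsCoprime (n : ℤ) (q : ℤ) := by
      rw [Nat.isCoprime_iff_coprime]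
      exact ((Nat.Prime.coprime_iff_not_dvd hq).mpr (Nat.not_dvd_of_pos_of_lt hn hnq)).symm
    obtain ⟨u, v, huv⟩ := hc
    have h2 : (1 : 𝓞 F) ∈ 𝔭.1 := by
      have : (1 : 𝓞 F) = (u : 𝓞 F) * (n : 𝓞 F) + (v : 𝓞 F) * (q : 𝓞 F) := by
        exact_mod_cast (congrArg (fun z : ℤ => (z : 𝓞 F)) huv).symm
      rw [this]
      exact 𝔭.1.add_mem (𝔭.1.mul_mem_left _ h1) (𝔭.1.mul_mem_left _ 𝔭.2.2)
    exact 𝔭.2.1.ne_top ((Ideal.eq_top_iff_one _).mpr h2)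
  exact Pool.Agent.N738.PJ.exists_irr0 (𝓞 F ⧸ 𝔭.1) n hn hn0

/-- there is a prime ideal over `q` -/
theorem nonempty_over {q : ℕ} (hq : q.Prime) : Nonempty (Ov F q) := by
  have h : Ideal.span {(q : 𝓞 F)} ≠ ⊤ := by
    intro h
    rw [Ideal.span_singleton_eq_top] at h
    have h2 : Ideal.absNorm (Ideal.span {(q : 𝓞 F)}) = 1 := by
      rw [Ideal.absNorm_eq_one_iff, Ideal.span_singleton_eq_top]
      exact h
    rw [Ideal.absNorm_span_singleton] at h2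
    have h3 : Algebra.norm ℤ (q : 𝓞 F) = (q : ℤ) ^ Module.finrank ℤ (𝓞 F) := by
      have : (q : 𝓞 F) = algebraMap ℤ (𝓞 F) (q : ℤ) := by simp
      rw [this, Algebra.norm_algebraMap]
    rw [h3, Int.natAbs_pow, Int.natAbs_natCast] at h2
    have h4 : 0 < Module.finrank ℤ (𝓞 F) := Module.finrank_pos
    have := Nat.one_lt_pow h4.ne' hq.one_lt
    omega
  obtain ⟨M, hM, hle⟩ := Ideal.exists_le_maximal _ h
  exact ⟨⟨M, hM.isPrime, hle (Ideal.mem_span_singleton_self _)⟩⟩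

/-- the data for one prime -/
theorem exists_data (F : Type) [Field F] [NumberField F] (g q : ℕ) (hg : 1 ≤ g) (hq : q.Prime)
    (hgq : 2 * g + 1 < q) (hd : (discr F).natAbs < q) :
    ∃ (𝔮 : Ideal (𝓞 F)) (h A : (𝓞 F)[X]),
    (∀ 𝔭 : Ideal (𝓞 F), 𝔭.IsPrime → (q : 𝓞 F) ∉ 𝔭 ^ 2) ∧
    𝔮.IsPrime ∧ (q : 𝓞 F) ∈ 𝔮 ∧
    h.Monic ∧ h.natDegree = 2 * g ∧ Irreducible (rd 𝔮 h) ∧
    A.Monic ∧ A.natDegree = 2 * g + 1 ∧ A.coeff (2 * g) = 0 ∧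
    Cg 𝔮 A (X * h) ∧
    ∀ 𝔭 : Ideal (𝓞 F), 𝔭.IsPrime → (q : 𝓞 F) ∈ 𝔭 → 𝔭 ≠ 𝔮 → Irreducible (rd 𝔭 A) := by
  obtain ⟨𝔮⟩ := nonempty_over (F := F) hq
  choose s hs using fun 𝔭 : Ov F q =>
    exists_irr_mod (F := F) hq (2 * g) (by omega) (by omega) 𝔭
  choose t ht using fun 𝔭 : Ov F q =>
    exists_irr_mod (F := F) hq (2 * g + 1) (by omega) (by omega) 𝔭
  obtain ⟨h, h1, h2, h3, h4⟩ := lift (F := F) hq (2 * g) (by omega) s
    (fun 𝔭 => ⟨(hs 𝔭).1, (hs 𝔭).2.2.1, (hs 𝔭).2.2.2⟩)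
  have hmon : (X * h).Monic := monic_X.mul h1
  have hdeg : (X * h).natDegree = 2 * g + 1 := by
    rw [monic_X.natDegree_mul h1, natDegree_X, h2, add_comm]
  have hco : (X * h).coeff (2 * g) = 0 := by
    have : 2 * g = (2 * g - 1) + 1 := by omega
    rw [this, coeff_X_mul, h3]
  have hnt : Nontrivial (𝓞 F ⧸ 𝔮.1) := Ideal.Quotient.nontrivial_iff.mpr 𝔮.2.1.ne_top
  obtain ⟨A, a1, a2, a3, a4⟩ := lift (F := F) hq (2 * g + 1) (by omega)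
    (fun 𝔭 => if 𝔭 = 𝔮 then rd 𝔭.1 (X * h) else t 𝔭) (fun 𝔭 => by
      by_cases hp : 𝔭 = 𝔮
      · subst hp
        have e : (if 𝔭 = 𝔭 then rd 𝔭.1 (X * h) else t 𝔭) = rd 𝔭.1 (X * h) := if_pos rfl
        show (if 𝔭 = 𝔭 then rd 𝔭.1 (X * h) else t 𝔭).Monic ∧
          (if 𝔭 = 𝔭 then rd 𝔭.1 (X * h) else t 𝔭).natDegree = 2 * g + 1 ∧
          (if 𝔭 = 𝔭 then rd 𝔭.1 (X * h) else t 𝔭).coeff (2 * g + 1 - 1) = 0
        rw [e]
        refine ⟨hmon.map _, ?_, ?_⟩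
        · rw [hmon.natDegree_map, hdeg]
        · show (Polynomial.map (Ideal.Quotient.mk 𝔭.1) (X * h)).coeff (2 * g + 1 - 1) = 0
          rw [coeff_map, show 2 * g + 1 - 1 = 2 * g from by omega, hco, map_zero]
      · simp only [if_neg hp]
        exact ⟨(ht 𝔭).1, (ht 𝔭).2.2.1, (ht 𝔭).2.2.2⟩)
  refine ⟨𝔮.1, h, A, fun 𝔭 hp => not_mem_sq hq hd hp, 𝔮.2.1, 𝔮.2.2, h1, h2, ?_, a1, a2, ?_, ?_, ?_⟩
  · rw [h4 𝔮]
    exact (hs 𝔮).2.1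
  · have : 2 * g + 1 - 1 = 2 * g := by omega
    rw [← this]
    exact a3
  · intro j
    have h5 : rd 𝔮.1 A = rd 𝔮.1 (X * h) := (a4 𝔮).trans (if_pos rfl)
    have h6 := congrArg (fun p : (𝓞 F ⧸ 𝔮.1)[X] => p.coeff j) h5
    simp only [coeff_map] at h6
    exact Ideal.Quotient.eq.mp h6
  · intro 𝔭 hp hq2 hne
    have h5 := a4 ⟨𝔭, hp, hq2⟩
    have h6 : (⟨𝔭, hp, hq2⟩ : Ov F q) ≠ 𝔮 := fun h => hne (congrArg Subtype.val h)
    simp only [if_neg h6] at h5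
    rw [h5]
    exact (ht ⟨𝔭, hp, hq2⟩).2.1

/-- EXS -/
theorem exs : S_EXS := by
  intro F _ _ g W hg m
  obtain ⟨S, hS, hS2⟩ := Pool.Agent.N262.PQ.exists_primes (W + (2 * g + 1) + (discr F).natAbs) m
  have hdata : ∀ q : ℕ, ∃ (𝔮 : Ideal (𝓞 F)) (h A : (𝓞 F)[X]), q ∈ S →
    (∀ 𝔭 : Ideal (𝓞 F), 𝔭.IsPrime → (q : 𝓞 F) ∉ 𝔭 ^ 2) ∧
    𝔮.IsPrime ∧ (q : 𝓞 F) ∈ 𝔮 ∧
    h.Monic ∧ h.natDegree = 2 * g ∧ Irreducible (rd 𝔮 h) ∧
    A.Monic ∧ A.natDegree = 2 * g + 1 ∧ A.coeff (2 * g) = 0 ∧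
    Cg 𝔮 A (X * h) ∧
    ∀ 𝔭 : Ideal (𝓞 F), 𝔭.IsPrime → (q : 𝓞 F) ∈ 𝔭 → 𝔭 ≠ 𝔮 → Irreducible (rd 𝔭 A) := by
    intro q
    by_cases hq : q ∈ S
    · obtain ⟨h1, h2, h3⟩ := hS2 q hq
      obtain ⟨𝔮, h, A, hh⟩ := exists_data F g q hg h1 (by omega) (by omega)
      exact ⟨𝔮, h, A, fun _ => hh⟩
    · exact ⟨⊥, 0, 0, fun h => absurd h hq⟩
  choose 𝔮 h A hh using hdata
  refine ⟨S, 𝔮, h, A, fun q hq => ?_, hS⟩
  obtain ⟨h1, h2, h3⟩ := hS2 q hq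
  exact ⟨h1, by omega, by omega, h3, hh q hq⟩

end Pool.Agent.N710.PF
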